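import Pool.Agent.Helper75.Torus.Goals

set_option autoImplicit false

/-!
# Packet TORUS-CONTRA (MP_beb0a8_an)
-/

open Set MeasureTheory Matrix

namespace Pool.Agent.Helper26.Torus

open Pool.Agent.Helper75.Torus

theorem thmTrans : G_TRANS := by
  intro φ h
  have hd : Differentiable ℝ (fun X => φ X - X) := fun X =>
    ((h X).differentiableAt).sub differentiableAt_id
  have h0 : ∀ X, fderiv ℝ (fun X => φ X - X) X = 0 := by
    intro X
    have := ((h X).sub (hasFDerivAt_id X)).fderiv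
    rw [show (fun X => φ X - X) = (φ - id) from rfl, this, sub_self]
  refine ⟨φ 0 - 0, fun X => ?_⟩
  have := is_const_of_fderiv_eq_zero hd h0 X 0
  have h1 : φ X - X = φ 0 - 0 := this
  rw [← h1]
  abel

theorem cross_norm (a b : E) : ‖crossProduct a b‖ ≤ 2 * ‖a‖ * ‖b‖ := by
  have hc : ∀ i j : Fin 3, |a i * b j| ≤ ‖a‖ * ‖b‖ := fun i j => by
    rw [abs_mul]
    exact mul_le_mul (norm_le_pi_norm a i) (norm_le_pi_norm b j) (abs_nonneg _) (norm_nonneg _)
  have hd : ∀ i j k l : Fin 3, |a i * b j - a k * b l| ≤ 2 * ‖a‖ * ‖b‖ := fun i j k l => by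
    refine (abs_sub _ _).trans ?_
    have := hc i j
    have := hc k l
    linarith
  refine (pi_norm_le_iff_of_nonneg (by positivity)).2 fun i => ?_
  rw [Real.norm_eq_abs, cross_apply]
  fin_cases i
  · exact hd 1 2 2 1
  · exact hd 2 0 0 2
  · exact hd 0 1 1 0

theorem dot_abs (a b : E) : |a ⬝ᵥ b| ≤ 3 * ‖a‖ * ‖b‖ := by
  unfold dotProduct
  refine (Finset.abs_sum_le_sum_abs _ _).trans ?_
  have : ∀ i ∈ (Finset.univ : Finset (Fin 3)), |a i * b i| ≤ ‖a‖ * ‖b‖ := fun i _ => by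
    rw [abs_mul]
    exact mul_le_mul (norm_le_pi_norm a i) (norm_le_pi_norm b i) (abs_nonneg _) (norm_nonneg _)
  refine (Finset.sum_le_sum this).trans ?_
  simp
  linarith

theorem trn_norm (J : E →L[ℝ] E) (z : E) : ‖trn J z‖ ≤ 3 * ‖J‖ * ‖z‖ := by
  refine (pi_norm_le_iff_of_nonneg (by positivity)).2 fun i => ?_
  unfold trn
  rw [Real.norm_eq_abs]
  refine (dot_abs _ _).trans ?_
  have h1 : ‖J (ee i)‖ ≤ ‖J‖ := by
    refine (J.le_opNorm _).trans ?_
    have : ‖(ee i : E)‖ ≤ 1 := by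
      unfold ee
      rw [Pi.norm_single]
      simp
    exact mul_le_of_le_one_right (norm_nonneg _) this
  have := norm_nonneg z
  nlinarith

theorem T_norm (J : E →L[ℝ] E) (κ b : E) :
    ‖crossProduct κ (trn J (J b))‖ ≤ 6 * ‖κ‖ * ‖J‖ ^ 2 * ‖b‖ := by
  refine (cross_norm _ _).trans ?_
  have h1 := trn_norm J (J b)
  have h2 := J.le_opNorm b
  have h3 : ‖trn J (J b)‖ ≤ 3 * ‖J‖ * (‖J‖ * ‖b‖) :=
    h1.trans (mul_le_mul_of_nonneg_left h2 (by positivity))
  calc 2 * ‖κ‖ * ‖trn J (J b)‖ ≤ 2 * ‖κ‖ * (3 * ‖J‖ * (‖J‖ * ‖b‖)) :=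
        mul_le_mul_of_nonneg_left h3 (by positivity)
    _ = 6 * ‖κ‖ * ‖J‖ ^ 2 * ‖b‖ := by ring

theorem trn_add (J : E →L[ℝ] E) (z w : E) : trn J (z + w) = trn J z + trn J w := by
  funext i
  simp [trn, add_dotProduct]

theorem exists_orth (κ : E) : ∃ n : E, n ≠ 0 ∧ κ ⬝ᵥ n = 0 := by
  by_cases h : κ 0 = 0 ∧ κ 1 = 0
  · refine ⟨![1, 0, 0], ?_, ?_⟩
    · intro h0
      have := congrFun h0 0
      simp at this
    · simp [dotProduct, Fin.sum_univ_three, h.1]
  · refine ⟨![-κ 1, κ 0, 0], ?_, ?_⟩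
    · intro h0
      apply h
      have h1 := congrFun h0 0
      have h2 := congrFun h0 1
      simp at h1 h2
      exact ⟨h2, h1⟩
    · simp [dotProduct, Fin.sum_univ_three]
      ring

theorem continuous_cross {X : Type} [TopologicalSpace X] {f g : X → E} (hf : Continuous f)
    (hg : Continuous g) : Continuous fun x => crossProduct (f x) (g x) := by
  have h1 : ∀ i, Continuous fun x => f x i := fun i => (continuous_apply i).comp hf
  have h2 : ∀ i, Continuous fun x => g x i := fun i => (continuous_apply i).comp hg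
  refine continuous_pi fun i => ?_
  simp only [cross_apply]
  fin_cases i
  · exact ((h1 1).mul (h2 2)).sub ((h1 2).mul (h2 1))
  · exact ((h1 2).mul (h2 0)).sub ((h1 0).mul (h2 2))
  · exact ((h1 0).mul (h2 1)).sub ((h1 1).mul (h2 0))

theorem continuous_cofv (κ : E) : Continuous fun J : E →L[ℝ] E => cofv J κ := by
  have h : ∀ i, Continuous fun J : E →L[ℝ] E => J (ee i) := fun i =>
    (ContinuousLinearMap.apply ℝ E (ee i)).continuous
  have e1 := (continuous_cross (h 1) (h 2)).const_smul (κ 0)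
  have e2 := (continuous_cross (h 2) (h 0)).const_smul (κ 1)
  have e3 := (continuous_cross (h 0) (h 1)).const_smul (κ 2)
  exact (e1.add e2).add e3

theorem continuous_dot {X : Type} [TopologicalSpace X] {f g : X → E} (hf : Continuous f)
    (hg : Continuous g) : Continuous fun x => f x ⬝ᵥ g x := by
  unfold dotProduct
  exact continuous_finsetSum _ fun i _ =>
    ((continuous_apply i).comp hf).mul ((continuous_apply i).comp hg)

theorem thm (h1 : G_BETA1) (hcof : G_COF) : G_CONTRA := by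
  intro t J κ c P Q ht hJ hdet hκ hc hP hQ H
  obtain ⟨n, hn0, hn⟩ := exists_orth κ
  -- the compact parameter set
  set S : Set (ℝ × ℝ) := Icc 0 t ×ˢ Icc 0 1 with hS
  have hSc : IsCompact S := isCompact_Icc.prod isCompact_Icc
  have hSne : S.Nonempty := ⟨(0, 0), ⟨⟨le_rfl, ht.le⟩, ⟨le_rfl, zero_le_one⟩⟩⟩
  set seg : ℝ → E := fun τ => P + τ • (Q - P) with hseg
  have hsegc : Continuous seg := by fun_prop
  have hJS : ContinuousOn (fun z : ℝ × ℝ => J z.1 (seg z.2)) S := by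
    have : ContinuousOn (fun z : ℝ × ℝ => ((z.1, seg z.2) : ℝ × E)) S := by fun_prop
    exact hJ.comp this fun z hz => ⟨hz.1, mem_univ _⟩
  obtain ⟨z1, hz1, hz1'⟩ := hSc.exists_isMaxOn hSne hJS.norm
  set MJ : ℝ := ‖J z1.1 (seg z1.2)‖ with hMJ
  have hMJ0 : 0 ≤ MJ := norm_nonneg _
  have hMJb : ∀ z ∈ S, ‖J z.1 (seg z.2)‖ ≤ MJ := fun z hz => hz1' hz
  have hq : ContinuousOn (fun z : ℝ × ℝ => cofv (J z.1 (seg z.2)) κ ⬝ᵥ
      cofv (J z.1 (seg z.2)) κ) S :=
    (continuous_dot (continuous_cofv κ) (continuous_cofv κ)).comp_continuousOn hJS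
  obtain ⟨z2, hz2, hz2'⟩ := hSc.exists_isMinOn hSne hq
  have hqpos : ∀ z ∈ S, 0 < cofv (J z.1 (seg z.2)) κ ⬝ᵥ cofv (J z.1 (seg z.2)) κ := by
    intro z hz
    have := (hcof (J z.1 (seg z.2)) (hdet _ _ hz.1)).2.2.2.2.2.2.2 κ (by
      intro h
      rw [h] at hκ
      simp at hκ)
    unfold nn at this
    exact Real.sqrt_pos.1 this
  set m : ℝ := cofv (J z2.1 (seg z2.2)) κ ⬝ᵥ cofv (J z2.1 (seg z2.2)) κ with hm
  have hm0 : 0 < m := hqpos z2 hz2
  have hmb : ∀ z ∈ S, m ≤ cofv (J z.1 (seg z.2)) κ ⬝ᵥ cofv (J z.1 (seg z.2)) κ :=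
    fun z hz => hz2' hz
  have hJn : Continuous fun A : E →L[ℝ] E => A n := (ContinuousLinearMap.apply ℝ E n).continuous
  have hp : ContinuousOn (fun z : ℝ × ℝ => (J z.1 (seg z.2)) n ⬝ᵥ (J z.1 (seg z.2)) n) S :=
    (continuous_dot hJn hJn).comp_continuousOn hJS
  obtain ⟨z3, hz3, hz3'⟩ := hSc.exists_isMinOn hSne hp
  set m2 : ℝ := (J z3.1 (seg z3.2)) n ⬝ᵥ (J z3.1 (seg z3.2)) n with hm2
  have hm20 : 0 < m2 := by
    have hne : (J z3.1 (seg z3.2)) n ≠ 0 := by
      intro h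
      have := (hcof (J z3.1 (seg z3.2)) (hdet _ _ hz3.1)).2.2.2.1 n
      rw [h] at this
      apply hn0
      rw [← this]
      funext i
      simp [inv3]
    have := dotProduct_self_star_pos_iff (v := (J z3.1 (seg z3.2)) n)
    simp only [star_trivial] at this
    exact this.2 hne
  have hm2b : ∀ z ∈ S, m2 ≤ (J z.1 (seg z.2)) n ⬝ᵥ (J z.1 (seg z.2)) n := fun z hz => hz3' hz
  -- constants
  set B : ℝ := 6 * ‖κ‖ * MJ ^ 2 / m with hB
  have hB0 : 0 ≤ B := by positivity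
  set B2 : ℝ := 3 * (6 * ‖κ‖ * MJ ^ 2) * ‖crossProduct κ n‖ with hB2
  have hB20 : 0 ≤ B2 := by positivity
  set A : ℝ := (B * t + 1) * (‖n‖ + 1) * (B2 + 1) with hA
  have hBt : 0 ≤ B * t := by positivity
  have hnn : 0 ≤ ‖n‖ := norm_nonneg n
  have hA0 : 0 < A := by positivity
  set y : ℝ := min (c Q) (min 1 m2 / (4 * A)) with hy
  have hy0 : 0 < y := lt_min hQ (by
    have : 0 < min 1 m2 := lt_min one_pos hm20
    positivity)
  have hyA : y * A ≤ min 1 m2 / 4 := by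
    have h2 : y ≤ min 1 m2 / (4 * A) := min_le_right _ _
    calc y * A ≤ min 1 m2 / (4 * A) * A := mul_le_mul_of_nonneg_right h2 hA0.le
      _ = min 1 m2 / 4 := by field_simp
  have hyBt : y * (B * t) ≤ 1 / 4 := by
    have h2 : B * t ≤ A := by
      rw [hA]
      have : 0 ≤ B * t * ‖n‖ := by positivity
      have h5 : B * t + 1 ≤ (B * t + 1) * (‖n‖ + 1) := by nlinarith
      have h6 : (B * t + 1) * (‖n‖ + 1) ≤ (B * t + 1) * (‖n‖ + 1) * (B2 + 1) := by
        have : 0 ≤ (B * t + 1) * (‖n‖ + 1) := by positivity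
        nlinarith
      linarith
    have h3 : min 1 m2 ≤ 1 := min_le_left _ _
    have h4 := mul_le_mul_of_nonneg_left h2 hy0.le
    linarith
  -- the point
  obtain ⟨τ, hτ, hτc⟩ : ∃ τ ∈ Icc (0 : ℝ) 1, c (seg τ) = y := by
    have hcc : ContinuousOn (fun τ => c (seg τ)) (Icc 0 1) := (hc.comp hsegc).continuousOn
    have := intermediate_value_Icc (zero_le_one : (0:ℝ) ≤ 1) hcc
    have h5 : y ∈ Icc (c (seg 0)) (c (seg 1)) := by
      constructor
      · have : seg 0 = P := by simp [hseg]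
        rw [this]
        linarith
      · have : seg 1 = Q := by simp [hseg]
        rw [this]
        exact min_le_left _ _
    obtain ⟨τ, h6, h7⟩ := this h5
    exact ⟨τ, h6, h7⟩
  have hz : ∀ s ∈ Icc 0 t, ((s, τ) : ℝ × ℝ) ∈ S := fun s hs => ⟨hs, hτ⟩
  have hJt : ContinuousOn (fun s => J s (seg τ)) (Icc 0 t) :=
    hJ.comp (by fun_prop : ContinuousOn (fun s : ℝ => ((s, seg τ) : ℝ × E)) (Icc 0 t))
      fun s hs => ⟨hs, mem_univ _⟩
  obtain ⟨β, hβ, hβ0⟩ := h1 t (fun s => J s (seg τ)) κ n (c (seg τ)) ht.le hJt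
    (fun s hs => hdet _ _ hs) hκ hn
  have hβt := H (seg τ) β hβ
  rw [hτc] at hβ
  have hβc : ContinuousOn β (Icc 0 t) := fun s hs => (hβ.1 s hs).continuousWithinAt
  -- bound of the right-hand side
  have hRn : ∀ s ∈ Icc 0 t, ‖bRHS y (J s (seg τ)) κ (β s)‖ ≤ y * B * ‖β s‖ := by
    intro s hs
    unfold bRHS
    rw [norm_smul, norm_neg, Real.norm_eq_abs, abs_of_nonneg (div_nonneg hy0.le
      (hqpos (s, τ) (hz s hs)).le)]
    have a1 := T_norm (J s (seg τ)) κ (β s)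
    have a2 : 6 * ‖κ‖ * ‖J s (seg τ)‖ ^ 2 * ‖β s‖ ≤ 6 * ‖κ‖ * MJ ^ 2 * ‖β s‖ := by
      have c1 : ‖J s (seg τ)‖ ≤ MJ := hMJb (s, τ) (hz s hs)
      gcongr
    have a3 : y / (cofv (J s (seg τ)) κ ⬝ᵥ cofv (J s (seg τ)) κ) ≤ y / m :=
      div_le_div_of_nonneg_left hy0.le hm0 (hmb (s, τ) (hz s hs))
    calc y / (cofv (J s (seg τ)) κ ⬝ᵥ cofv (J s (seg τ)) κ) *
          ‖crossProduct κ (trn (J s (seg τ)) (J s (seg τ) (β s)))‖
        ≤ y / m * (6 * ‖κ‖ * MJ ^ 2 * ‖β s‖) :=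
          mul_le_mul a3 (a1.trans a2) (norm_nonneg _) (div_nonneg hy0.le hm0.le)
      _ = y * B * ‖β s‖ := by
          rw [hB]
          field_simp
  -- the deviation
  have hcn : ContinuousOn (fun s => ‖β s - n‖) (Icc 0 t) := (hβc.sub continuousOn_const).norm
  obtain ⟨s0, hs0, hs0'⟩ := isCompact_Icc.exists_isMaxOn (nonempty_Icc.2 ht.le) hcn
  set D : ℝ := ‖β s0 - n‖ with hD
  have hDb : ∀ s ∈ Icc 0 t, ‖β s - n‖ ≤ D := fun s hs => hs0' hs
  have hD0 : 0 ≤ D := norm_nonneg _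
  have hβb : ∀ s ∈ Icc 0 t, ‖β s‖ ≤ ‖n‖ + D := by
    intro s hs
    have := hDb s hs
    calc ‖β s‖ = ‖n + (β s - n)‖ := by congr 1; abel
      _ ≤ ‖n‖ + ‖β s - n‖ := norm_add_le _ _
      _ ≤ ‖n‖ + D := by linarith
  have hDle : D ≤ y * B * (‖n‖ + D) * t := by
    have := (convex_Icc (0:ℝ) t).norm_image_sub_le_of_norm_hasDerivWithin_le
      (f := β) (f' := fun s => bRHS y (J s (seg τ)) κ (β s)) (C := y * B * (‖n‖ + D))
      (fun s hs => hβ.1 s hs) (fun s hs => (hRn s hs).trans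
        (mul_le_mul_of_nonneg_left (hβb s hs) (by positivity))) (left_mem_Icc.2 ht.le) hs0
    rw [hβ0] at this
    rw [hD]
    refine this.trans ?_
    rw [sub_zero, Real.norm_eq_abs, abs_of_nonneg hs0.1]
    exact mul_le_mul_of_nonneg_left hs0.2 (by positivity)
  have hB2D : B2 * D < m2 := by
    have e1 : D ≤ y * (B * t) * ‖n‖ + y * (B * t) * D := by
      have : y * B * (‖n‖ + D) * t = y * (B * t) * ‖n‖ + y * (B * t) * D := by ring
      linarith
    have e2 : y * (B * t) * D ≤ 1 / 4 * D := mul_le_mul_of_nonneg_right hyBt hD0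
    have e3 : 3 / 4 * D ≤ y * (B * t) * ‖n‖ := by linarith
    have e4 : B * t * ‖n‖ * B2 ≤ A := by
      rw [hA]
      have g1 : B * t ≤ B * t + 1 := by linarith
      have g2 : ‖n‖ ≤ ‖n‖ + 1 := by linarith
      have g3 : B2 ≤ B2 + 1 := by linarith
      have g4 : B * t * ‖n‖ ≤ (B * t + 1) * (‖n‖ + 1) :=
        mul_le_mul g1 g2 hnn (by positivity)
      exact mul_le_mul g4 g3 hB20 (by positivity)
    have e5 : B2 * (3 / 4 * D) ≤ y * A := by
      calc B2 * (3 / 4 * D) ≤ B2 * (y * (B * t) * ‖n‖) := mul_le_mul_of_nonneg_left e3 hB20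
        _ = y * (B * t * ‖n‖ * B2) := by ring
        _ ≤ y * A := mul_le_mul_of_nonneg_left e4 hy0.le
    have e6 : min 1 m2 ≤ m2 := min_le_right _ _
    linarith
  -- the strictly decreasing function
  set f : ℝ → ℝ := fun s => β s ⬝ᵥ crossProduct κ n with hf
  have hfd : ∀ s ∈ Icc 0 t, HasDerivWithinAt f
      (bRHS y (J s (seg τ)) κ (β s) ⬝ᵥ crossProduct κ n) (Icc 0 t) s := by
    intro s hs
    have a1 : ∀ i, HasDerivWithinAt (fun s => β s i) (bRHS y (J s (seg τ)) κ (β s) i)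
        (Icc 0 t) s := fun i => hasDerivWithinAt_pi.1 (hβ.1 s hs) i
    rw [hf]
    unfold dotProduct
    exact HasDerivWithinAt.fun_sum fun i _ => (a1 i).mul_const _
  have hneg : ∀ s ∈ Icc 0 t, bRHS y (J s (seg τ)) κ (β s) ⬝ᵥ crossProduct κ n < 0 := by
    intro s hs
    unfold bRHS
    rw [smul_dotProduct, smul_eq_mul]
    set A' := J s (seg τ) with hA'
    have a1 : crossProduct κ (trn A' (A' (β s))) ⬝ᵥ crossProduct κ n =
        A' n ⬝ᵥ A' n + crossProduct κ (trn A' (A' (β s - n))) ⬝ᵥ crossProduct κ n := by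
      have b1 : crossProduct κ (trn A' (A' n)) ⬝ᵥ crossProduct κ n = A' n ⬝ᵥ A' n := by
        rw [cross_dot_cross, hκ, hn, one_mul, zero_mul, sub_zero]
        have := (hcof A' (hdet _ _ hs)).2.2.2.2.2.2.1 (A' n) n
        exact this
      rw [← b1, ← add_dotProduct, ← map_add, ← trn_add, ← map_add]
      congr 4
      abel
    have a2 : |crossProduct κ (trn A' (A' (β s - n))) ⬝ᵥ crossProduct κ n| ≤ B2 * D := by
      refine (dot_abs _ _).trans ?_
      have b1 := T_norm A' κ (β s - n)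
      have b2 : 6 * ‖κ‖ * ‖A'‖ ^ 2 * ‖β s - n‖ ≤ 6 * ‖κ‖ * MJ ^ 2 * D := by
        have c1 := hMJb (s, τ) (hz s hs)
        have c2 := hDb s hs
        gcongr
      calc 3 * ‖crossProduct κ (trn A' (A' (β s - n)))‖ * ‖crossProduct κ n‖
          ≤ 3 * (6 * ‖κ‖ * MJ ^ 2 * D) * ‖crossProduct κ n‖ := by
            have := b1.trans b2
            gcongr
        _ = B2 * D := by rw [hB2]; ring
    have a3 := hm2b (s, τ) (hz s hs)
    have a4 : 0 < crossProduct κ (trn A' (A' (β s))) ⬝ᵥ crossProduct κ n := by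
      rw [a1]
      have := (abs_le.1 a2).1
      have a5 : m2 ≤ A' n ⬝ᵥ A' n := a3
      linarith
    have a5 : 0 < y / (cofv A' κ ⬝ᵥ cofv A' κ) := div_pos hy0 (hqpos (s, τ) (hz s hs))
    have := mul_pos a5 a4
    linarith
  have hanti : StrictAntiOn f (Icc 0 t) := by
    refine strictAntiOn_of_deriv_neg (convex_Icc 0 t)
      (fun s hs => (hfd s hs).continuousWithinAt) ?_
    intro s hs
    rw [interior_Icc] at hs
    have hs' := Ioo_subset_Icc_self hs
    rw [((hfd s hs').hasDerivAt (Icc_mem_nhds hs.1 hs.2)).deriv]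
    exact hneg s hs'
  have := hanti (left_mem_Icc.2 ht.le) (right_mem_Icc.2 ht.le) ht
  rw [hf] at this
  simp only [hβt] at this
  exact lt_irrefl _ this

end Pool.Agent.Helper26.Torus
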